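import Pool.Agent.MP_856573_co.H74.Bas

/-!
The link of a vertex of a triangulation is a cycle.
-/

namespace Pool.Agent.MP_856573_co.H74

open Set

namespace LinkAux

variable {V : Type} [DecidableEq V] {G : SimpleGraph V} {D : Finset V} {F : Finset (Finset V)}

theorem adj3 (h : Tri G D F) {s a b : V} (hf : ({s, a, b} : Finset V) ∈ F) :
    G.Adj s a ∧ G.Adj s b ∧ G.Adj a b :=
  SimpleGraph.is3Clique_triple_iff.1 (h.face _ hf).2

theorem swap3 {s a b : V} (hf : ({s, a, b} : Finset V) ∈ F) : ({s, b, a} : Finset V) ∈ F := by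
  rwa [Finset.pair_comm b a]

theorem form (h : Tri G D F) {f : Finset V} (hf : f ∈ F) {s w : V} (hs : s ∈ f) (hw : w ∈ f)
    (hne : w ≠ s) : ∃ c, f = {s, w, c} := by
  have c3 : f.card = 3 := (h.face f hf).2.card_eq
  have hw' : w ∈ f.erase s := Finset.mem_erase.2 ⟨hne, hw⟩
  have c1 : ((f.erase s).erase w).card = 1 := by
    rw [Finset.card_erase_of_mem hw', Finset.card_erase_of_mem hs, c3]
  obtain ⟨c, hc⟩ := Finset.card_eq_one.1 c1
  refine ⟨c, ?_⟩
  rw [← hc, Finset.insert_erase hw', Finset.insert_erase hs]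

theorem third (h : Tri G D F) {s a b e : V} (he : ({s, a, e} : Finset V) ∈ F)
    (hh : ({s, a, e} : Finset V) = {s, a, b}) : e = b := by
  obtain ⟨-, h2, h3⟩ := adj3 h he
  have : e ∈ ({s, a, b} : Finset V) := hh ▸ by simp
  simp only [Finset.mem_insert, Finset.mem_singleton] at this
  rcases this with r | r | r
  · exact absurd r h2.ne'
  · exact absurd r h3.ne'
  · exact r

theorem other (h : Tri G D F) {s a b : V} (hf : ({s, a, b} : Finset V) ∈ F) :
    ∃ c, c ≠ b ∧ ({s, a, c} : Finset V) ∈ F ∧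
      ∀ e, ({s, a, e} : Finset V) ∈ F → e = b ∨ e = c := by
  have a1 := (adj3 h hf).1
  have hD := (h.face _ hf).1
  have t := h.two s (hD (by simp)) a (hD (by simp)) a1
  have mem : ∀ e, ({s, a, e} : Finset V) ∈ F →
      ({s, a, e} : Finset V) ∈ F.filter fun f => s ∈ f ∧ a ∈ f := fun e he =>
    Finset.mem_filter.2 ⟨he, by simp, by simp⟩
  obtain ⟨f', hf', hne⟩ : ∃ f' ∈ F.filter fun f => s ∈ f ∧ a ∈ f, f' ≠ {s, a, b} :=
    Finset.exists_mem_ne (by omega) _
  have all : ∀ g ∈ F.filter fun f => s ∈ f ∧ a ∈ f, g = {s, a, b} ∨ g = f' := by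
    have e : ({{s, a, b}, f'} : Finset (Finset V)) = F.filter fun f => s ∈ f ∧ a ∈ f := by
      refine Finset.eq_of_subset_of_card_le ?_ (by rw [t, Finset.card_pair hne.symm])
      intro g hg
      rcases Finset.mem_insert.1 hg with r | r
      · exact r ▸ mem b hf
      · exact Finset.mem_singleton.1 r ▸ hf'
    intro g hg
    rw [← e] at hg
    simpa using hg
  obtain ⟨m1, m2, m3⟩ := Finset.mem_filter.1 hf'
  obtain ⟨c, rfl⟩ := form h m1 m2 m3 a1.ne'
  refine ⟨c, fun e => hne (by rw [e]), m1, fun e he => ?_⟩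
  exact (all _ (mem e he)).imp (third h he) (third h he)

/-- The rotation around `s`. -/
theorem rot (h : Tri G D F) {s x y : V} (hf : ({s, x, y} : Finset V) ∈ F) :
    ∃ u : ℕ → V, u 0 = y ∧ u 1 = x ∧ ∀ n, ({s, u (n + 1), u n} : Finset V) ∈ F ∧ u (n + 2) ≠ u n ∧
      ∀ e, ({s, u (n + 1), e} : Finset V) ∈ F → e = u n ∨ e = u (n + 2) := by
  choose nx h1 h2 h3 using fun p : {p : V × V // ({s, p.1, p.2} : Finset V) ∈ F} => other h p.2
  let st : {p : V × V // ({s, p.1, p.2} : Finset V) ∈ F} →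
      {p : V × V // ({s, p.1, p.2} : Finset V) ∈ F} := fun p => ⟨(nx p, p.1.1), swap3 (h2 p)⟩
  let P : ℕ → {p : V × V // ({s, p.1, p.2} : Finset V) ∈ F} := fun n => st^[n] ⟨(x, y), hf⟩
  have hP : ∀ n, P (n + 1) = st (P n) := fun n => Function.iterate_succ_apply' _ _ _
  have e1 : ∀ n, (P (n + 1)).1.2 = (P n).1.1 := fun n => by rw [hP]
  have e2 : ∀ n, (P (n + 2)).1.2 = nx (P n) := fun n => by rw [e1, hP]
  refine ⟨fun n => (P n).1.2, rfl, e1 0, fun n => ?_⟩
  simp only [e1 n, e2 n]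
  exact ⟨(P n).2, h1 _, h3 _⟩

end LinkAux

open LinkAux in
theorem link (_tb : StmtTB) : StmtLINK := by
  intro V _ _ G D F h s x y hf
  classical
  obtain ⟨u, u0, u1, hu⟩ := rot h hf
  have ir : ∀ n, u (n + 1) ≠ u n := fun n => (adj3 h (hu n).1).2.2.ne
  have ex : ∃ j, ∃ i < j, u i = u j := by
    obtain ⟨a, b, hab, e⟩ := Finite.exists_ne_map_eq_of_infinite u
    rcases lt_or_gt_of_ne hab with l | l
    · exact ⟨b, a, l, e⟩
    · exact ⟨a, b, l, e.symm⟩
  obtain ⟨i, hi, hij⟩ := Nat.find_spec ex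
  have inj : ∀ a < Nat.find ex, ∀ b < Nat.find ex, u a = u b → a = b := by
    intro a ha b hb e
    by_contra hne
    rcases lt_or_gt_of_ne hne with l | l
    · exact Nat.find_min ex hb ⟨a, l, e⟩
    · exact Nat.find_min ex ha ⟨b, l, e.symm⟩
  obtain ⟨d, hd⟩ : ∃ d, Nat.find ex = d + 1 := ⟨Nat.find ex - 1, by omega⟩
  rw [hd] at hi hij inj
  have i0 : i = 0 := by
    by_contra hne
    obtain ⟨k, rfl⟩ : ∃ k, i = k + 1 := ⟨i - 1, by omega⟩
    have f1 := (hu d).1
    rw [← hij] at f1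
    rcases (hu k).2.2 _ f1 with e | e
    · have := inj d (by omega) k (by omega) e
      omega
    · by_cases c : k + 1 = d
      · rw [c] at hij
        exact ir d hij.symm
      · have := inj d (by omega) (k + 2) (by omega) e
        subst this
        exact (hu (k + 1)).2.1 hij.symm
  subst i0
  have d2 : 2 ≤ d := by
    by_contra c
    rcases (by omega : d = 0 ∨ d = 1) with rfl | rfl
    · exact ir 0 hij.symm
    · exact (hu 0).2.1 hij.symm
  have last : u (d + 2) = u 1 := by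
    have f1 := swap3 (hu 0).1
    rw [hij] at f1
    rcases (hu d).2.2 _ f1 with e | e
    · have := inj (0 + 1) (by omega) d (by omega) e
      omega
    · exact e.symm
  have cl : ∀ w, (∃ i ≤ d, u (i + 1) = w) → ∀ c, ({s, w, c} : Finset V) ∈ F →
      ∃ i ≤ d, u (i + 1) = c := by
    rintro _ ⟨i, hi, rfl⟩ c hc
    rcases (hu i).2.2 c hc with rfl | rfl
    · rcases i with _ | i
      · exact ⟨d, le_rfl, hij.symm⟩
      · exact ⟨i, by omega, rfl⟩
    · rcases hi.eq_or_lt with rfl | l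
      · exact ⟨0, by omega, last.symm⟩
      · exact ⟨i + 1, l, rfl⟩
  refine ⟨fun i => u (i + 1), d, d2, u1, hij.symm.trans u0, fun a ha b hb e => ?_,
    fun a _ => swap3 (hu (a + 1)).1, fun w hw hsw => ?_⟩
  · rcases ha.eq_or_lt with rfl | la <;> rcases hb.eq_or_lt with rfl | lb
    · rfl
    · have := inj 0 (by omega) (b + 1) (by omega) (hij.trans e)
      omega
    · have := inj 0 (by omega) (a + 1) (by omega) (hij.trans e.symm)
      omega
    · have := inj (a + 1) (by omega) (b + 1) (by omega) e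
      omega
  · have hs : s ∈ D := (h.face _ hf).1 (by simp)
    have t := h.two s hs w hw hsw
    obtain ⟨f, hf'⟩ := Finset.card_pos.1 (t ▸ two_pos)
    obtain ⟨m1, m2, m3⟩ := Finset.mem_filter.1 hf'
    have hx : ∃ i ≤ d, u (i + 1) = x := ⟨0, by omega, u1⟩
    have key := h.lc s {g | ∀ v ∈ g, v = s ∨ ∃ i ≤ d, u (i + 1) = v} ?_ _ hf f m1 (by simp) m2 ?_
    · exact (key w m3).resolve_left hsw.ne'
    · rintro g hg g' hg' - - s2 ⟨v, v1, v2, v3⟩
      obtain ⟨c, rfl⟩ := form h hg' s2 v3 v1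
      have a1 := (hg v v2).resolve_left v1
      intro z hz
      simp only [Finset.mem_insert, Finset.mem_singleton] at hz
      rcases hz with rfl | rfl | rfl
      · exact Or.inl rfl
      · exact Or.inr a1
      · exact Or.inr (cl v a1 _ hg')
    · intro z hz
      simp only [Finset.mem_insert, Finset.mem_singleton] at hz
      rcases hz with rfl | rfl | rfl
      · exact Or.inl rfl
      · exact Or.inr hx
      · exact Or.inr (cl x hx _ hf)

end Pool.Agent.MP_856573_co.H74
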